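import Pool.Agent.H34.TAM.Stmts

/-! Board tam, row ONE (helper86): one variable. -/

set_option autoImplicit false

noncomputable section

namespace Pool.TAM

open Pool.CGR Pool.CGS

namespace ONE

theorem eqw (u v : List (Fin 1)) (h : u.length = v.length) : u = v :=
  List.ext_getElem h fun _ _ _ => Subsingleton.elim _ _

theorem cgw {A : Type} [Ring A] [Algebra ℂ A] (y : Fin 1 → A) (w : List (Fin 1)) :
    cg y 0 (0 :: w) = ((w.length : ℂ) + 1) • ev y w := by
  unfold cg
  have h : ∀ k ∈ Finset.range (0 :: w : List (Fin 1)).length,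
      (if (0 :: w : List (Fin 1))[k]? = some 0 then
        ev y ((0 :: w : List (Fin 1)).drop (k + 1) ++ (0 :: w : List (Fin 1)).take k) else 0) =
      ev y w := by
    intro k hk
    rw [Finset.mem_range] at hk
    rw [if_pos (by
      rw [List.getElem?_eq_getElem hk]
      exact congrArg some (Subsingleton.elim _ _))]
    congr 1
    apply eqw
    rw [List.length_append, List.length_drop, List.length_take]
    simp only [List.length_cons] at hk ⊢
    omega
  rw [Finset.sum_congr rfl h, Finset.sum_const, Finset.card_range, List.length_cons,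
    ← Nat.cast_smul_eq_nsmul ℂ]
  push_cast
  rfl

end ONE

theorem one_thm : ONEStmt := by
  intro A _ τ hτ y hy hc ε hε
  obtain ⟨C, hC⟩ := hc
  have hp := pal_thm (Fin 1) A τ y
  let d : (List (Fin 1) →₀ ℂ) →ₗ[ℂ] ℂ :=
    { toFun := dp τ y 0
      map_add' := fun P Q => hp.2.1 0 P Q
      map_smul' := fun r P => ((hp.2.2.1 r P).2 0).1 }
  obtain ⟨R, hR⟩ := rzx' 1 A τ hτ y (fun i => by rw [Subsingleton.elim i 0]; exact hy) d C
    (fun P => hC 0 P) ε hε
  let H : List (Fin 1) →₀ ℂ := R.sum fun w r => Finsupp.single (0 :: w) (r / ((w.length : ℂ) + 1))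
  have hH : cp y 0 H = pe y R := by
    unfold cp pe
    rw [Finsupp.sum_sum_index (fun w => by rw [zero_smul]) (fun w a b => by rw [add_smul])]
    refine Finsupp.sum_congr fun w _ => ?_
    rw [Finsupp.sum_single_index (by rw [zero_smul]), ONE.cgw, smul_smul]
    congr 1
    have : (w.length : ℂ) + 1 ≠ 0 := Nat.cast_add_one_ne_zero _
    field_simp
  refine ⟨H, fun i P => ?_⟩
  rw [Subsingleton.elim i 0, hH]
  exact hR P

end Pool.TAM
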